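import Pool.Agent.Lib_helper54.DSF.ASM

/-!
# E1: one `ℓ`-adic representation suffices (MP_ef641d_nt)

Let `P p ∈ O_K[X]` be the Satake polynomials of a closed integral family of level `N` on `GL_n`.
If for ONE prime `ℓ` (any `ℓ`) there is a continuous semisimple `ℓ`-adic representation attached
to the `P p` at all primes `p` not dividing `N ℓ`, then it has finite image, and for every
`τ : K → ℂ` there is a complex representation with open kernel and finite image attached to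
`τ (P p)` at all these `p`.
-/

set_option autoImplicit false

namespace Pool.Agent.OC

open Polynomial NumberField Filter Topology MeasureTheory
open Pool.Agent.RS.Main (DirichletGE primeSum BoundedEigenform)
open Pool.Agent.DS

/-- Every `ℓ`-adic representation attached to a closed integral family has finite image. -/
theorem e1_image {n N : ℕ} (hn : 2 ≤ n) (hN : N ≠ 0) {K : Type} [Field K] [NumberField K]
    (P : ℕ → (𝓞 K)[X])
    (χ : (K →+* ℂ) → DirichletCharacter ℂ N)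
    (φ : (K →+* ℂ) → Matrix (Fin n) (Fin n) ℝ → ℂ)
    (hφ : ∀ τ : K →+* ℂ, BoundedEigenform n N (χ τ) (φ τ)
      (fun p => τ (-(P p).coeff (n - 1) : 𝓞 K)))
    {ℓ : ℕ} [Fact ℓ.Prime] (j : 𝓞 K →+* PadicAlgCl ℓ) (ρ : GQ →* GL (Fin n) (PadicAlgCl ℓ))
    (hcont : Continuous ρ) (hss : Semisimple ρ)
    (hatt : ∀ p : ℕ, p.Prime → ¬ p ∣ N → p ≠ ℓ → AttachedAt ρ p ((P p).map j)) :
    IsOpen (ρ.ker : Set GQ) ∧ Finite ρ.range ∧
      Nat.card ρ.range ≤ 2 * smallCard K (2 * n ^ 2) ^ n ^ 2 := by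
  have hc : ∀ a : ℕ, a ≠ 0 → (a : PadicAlgCl ℓ) ≠ 0 := fun a ha => Nat.cast_ne_zero.2 ha
  have hcont' : Continuous fun σ : GQ => (ρ σ : Matrix (Fin n) (Fin n) (PadicAlgCl ℓ)) :=
    Units.continuous_val.comp hcont
  obtain ⟨h4, h5, h6⟩ := asm_core hn hN P χ φ hφ j ρ hcont' hss
    (fun a ha _ => hc a ha.ne') (ℓ := ℓ) hatt
  have hcard : Nat.card ρ.range = ρ.ker.index := by rw [Subgroup.index_ker]
  refine ⟨h4, ?_, by rw [hcard]; exact h6⟩
  apply Nat.finite_of_card_ne_zero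
  rw [hcard]
  exact h5

/-- One `ℓ`-adic representation, for any prime `ℓ`, gives complex representations of finite image
attached to all conjugates of the family at all primes not dividing `N ℓ`. -/
theorem e1 {n N : ℕ} (hn : 2 ≤ n) (hN : N ≠ 0) (K : Type) [Field K] [NumberField K]
    (P : ℕ → (𝓞 K)[X]) (hP : ∀ p : ℕ, p.Prime → ¬ p ∣ N → (P p).Monic ∧ (P p).natDegree = n)
    (χ : (K →+* ℂ) → DirichletCharacter ℂ N)
    (φ : (K →+* ℂ) → Matrix (Fin n) (Fin n) ℝ → ℂ)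
    (hφ : ∀ τ : K →+* ℂ, BoundedEigenform n N (χ τ) (φ τ)
      (fun p => τ (-(P p).coeff (n - 1) : 𝓞 K)))
    {ℓ : ℕ} (h : AdicRep n N P ℓ) (τ : K →+* ℂ) :
    ∃ ρ : GQ →* GL (Fin n) ℂ, IsOpen (ρ.ker : Set GQ) ∧ Finite ρ.range ∧
      Nat.card ρ.range ≤ 2 * smallCard K (2 * n ^ 2) ^ n ^ 2 ∧
      ∀ p : ℕ, p.Prime → ¬ p ∣ N → p ≠ ℓ →
        AttachedAt ρ p ((P p).map (τ.comp (algebraMap (𝓞 K) K))) := by
  obtain ⟨hf, j, ρ, hcont, hss, hatt⟩ := h
  obtain ⟨h4, h5, h6⟩ := e1_image hn hN P χ φ hφ j ρ hcont hss hatt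
  have hℓ0 : ℓ ≠ 0 := hf.out.ne_zero
  have hcardidx : Nat.card ρ.range = ρ.ker.index := by rw [Subgroup.index_ker]
  have hidx0 : ρ.ker.index ≠ 0 := by
    rw [← hcardidx]
    exact Nat.card_ne_zero.2 ⟨⟨⟨1, one_mem _⟩⟩, h5⟩
  have hsub : ∀ p : ℕ, p.Prime → ¬ p ∣ N * ℓ → ¬ p ∣ N ∧ p ≠ ℓ := by
    intro p _ hp
    refine ⟨fun hd => hp (hd.mul_right _), fun e => hp ?_⟩
    rw [e]
    exact dvd_mul_left _ _
  obtain ⟨ρ', ⟨i, hker⟩, hρ'⟩ := gen (N := N * ℓ) (m := ρ.ker.index) (mul_ne_zero hN hℓ0)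
    (Nat.pos_of_ne_zero hidx0) P
    (fun p hp hpN => hP p hp (hsub p hp hpN).1)
    (fun _ => PadicAlgCl ℓ) (fun _ => inferInstance) (fun _ => j) (fun _ => ρ) (fun _ => ∅)
    (fun _ => h4)
    (by
      intro _ σ
      have h2 : σ ^ ρ.ker.index ∈ ρ.ker := Subgroup.pow_index_mem _ σ
      rw [MonoidHom.mem_ker, map_pow] at h2
      exact h2)
    (fun _ => hidx0)
    (by
      filter_upwards with i
      exact Nat.cast_ne_zero.2 hidx0)
    (by
      intro x hx
      filter_upwards with i h0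
      have hne : Ideal.absNorm (Ideal.span {x}) ≠ 0 := by
        rw [Ne, Ideal.absNorm_eq_zero_iff, Ideal.span_singleton_eq_bot]
        exact hx
      exact Nat.cast_ne_zero.2 hne (asm_norm j h0))
    (by
      intro _ p hp hpN _
      exact hatt p hp (hsub p hp hpN).1 (hsub p hp hpN).2)
    (by
      intro p _ _
      exact Filter.Frequently.of_forall fun _ => Finset.notMem_empty _)
    ∅
    (by
      intro p _ _
      filter_upwards with i
      exact Finset.notMem_empty _)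
    τ
  have hcard : Nat.card ρ'.range = ρ.ker.index := by rw [← hker, Subgroup.index_ker]
  refine ⟨ρ', by rw [hker]; exact h4, ?_, by rw [hcard, ← hcardidx]; exact h6, ?_⟩
  · apply Nat.finite_of_card_ne_zero
    rw [hcard]
    exact hidx0
  · intro p hp hpN hpl
    apply hρ' p hp
    intro hd
    rcases (Nat.Prime.dvd_mul hp).1 hd with h | h
    · exact hpN h
    · exact hpl ((Nat.prime_dvd_prime_iff_eq hp hf.out).1 h)

end Pool.Agent.OC
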